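import Pool.Agent.Work.MP_c404d3_gt.Main

/-!
The two-cable of the counterexample is a counterexample as well.
-/

namespace Pool.Agent.Work.MP_c404d3_gt

open scoped BigOperators Real Topology
open Finset Filter Complex

/-- the two-cable of `KK` with one more crossing -/
def KC : Word := cable 2 KK ++ [(0, true)]

theorem cab_perm_append (w v : Word) : perm (w ++ v) = perm w * perm v := by
  simp [perm]

theorem cab_sw (i u : ℕ) : ∃ v, Equiv.swap i (i + 1) u = v ∧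
    ((u = i ∧ v = i + 1) ∨ (u = i + 1 ∧ v = i) ∨ (u ≠ i ∧ u ≠ i + 1 ∧ v = u)) := by
  refine ⟨_, rfl, ?_⟩
  rw [Equiv.swap_apply_def]
  split_ifs <;> omega

theorem cab_perm (w : Word) (p : ℕ) : perm (cable 2 w) p = 2 * perm w (p / 2) + p % 2 := by
  induction w with
  | nil =>
    change p = 2 * (p / 2) + p % 2
    omega
  | cons x w ih =>
    have h : ∀ (x : ℕ × Bool) (w : Word) (p : ℕ),
        perm (x :: w) p = Equiv.swap x.1 (x.1 + 1) (perm w p) := fun x w p => by simp [perm]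
    have h2 : cable 2 (x :: w) = (x.1 * 2 + 1 + 0, x.2) :: (x.1 * 2 + 1 + 1, x.2) ::
        (x.1 * 2 + 0 + 0, x.2) :: (x.1 * 2 + 0 + 1, x.2) :: cable 2 w := rfl
    rw [h2, h, h, h, h, h, ih]
    have h3 : p % 2 < 2 := Nat.mod_lt _ two_pos
    generalize perm w (p / 2) = u, p % 2 = b at h3 ⊢
    obtain ⟨v0, e0, k0⟩ := cab_sw x.1 u
    obtain ⟨v1, e1, k1⟩ := cab_sw (x.1 * 2 + 0 + 1) (2 * u + b)
    obtain ⟨v2, e2, k2⟩ := cab_sw (x.1 * 2 + 0 + 0) v1
    obtain ⟨v3, e3, k3⟩ := cab_sw (x.1 * 2 + 1 + 1) v2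
    obtain ⟨v4, e4, k4⟩ := cab_sw (x.1 * 2 + 1 + 0) v3
    have e : v4 = 2 * v0 + b := by omega
    subst e1 e2 e3 e0
    exact e4.trans e

/-- the permutation of `KC`, computed on numbers -/
noncomputable def cabF (p : ℕ) : ℕ :=
  2 * A15_ap2 KK (A15_ap2 [(0, true)] p / 2) + A15_ap2 [(0, true)] p % 2

theorem cabF_eq (p : ℕ) : perm KC p = cabF p := by
  rw [KC, cab_perm_append, Equiv.Perm.mul_apply, cab_perm, cabF, A15_ap2_eq, A15_ap2_eq,
    A15_perm, A15_perm]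

/-- the first `n` points of an orbit -/
noncomputable def cabO : ℕ → ℕ → List ℕ
  | 0, _ => []
  | n + 1, u => u :: cabO n (cabF u)

theorem cabO_same (n u p : ℕ) (h : p ∈ cabO n u) : (perm KC).SameCycle u p := by
  induction n generalizing u with
  | zero => simp [cabO] at h
  | succ n ih =>
    rcases List.mem_cons.1 h with rfl | h
    · exact Equiv.Perm.SameCycle.refl _ _
    · have h1 := ih _ h
      rw [← cabF_eq] at h1
      exact Equiv.Perm.sameCycle_apply_left.1 h1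

theorem cab_isKnot : IsKnot 76 KC := by
  refine ⟨by norm_num, fun x hx => ?_, fun p hp => cabO_same 76 0 p ?_⟩
  · rcases List.mem_append.1 hx with h | h
    · exact cable_valid isKnot_KK.2.1 x h
    · rw [List.mem_singleton.1 h]
      norm_num
  · have h : ((List.range 76).all fun p => (cabO 76 0).contains p) = true := by decide +kernel
    simp only [List.all_eq_true, List.mem_range, List.contains_iff_mem] at h
    exact h p hp

theorem cab_isKnot_one : IsKnot 2 (tor 2) := by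
  exact A15_isKnot (by decide +kernel)

theorem cab_J {a : ℝ} (ha : 1 < a) (n : ℕ) :
    J (a : ℂ) 76 KC n =
      (a : ℂ) ^ (-((n : ℤ) * (n + 2))) * (-1) ^ n *
        ∑ s ∈ range (n + 1), (-1) ^ s * (a : ℂ) ^ (2 * (s : ℤ) * (s + 1)) * J (a : ℂ) 38 KK (2 * s) := by
  obtain ⟨B, hB, hBa⟩ := exists_root ha (k := 2) (by norm_num)
  have hB0 : (B : ℂ) ≠ 0 := by exact_mod_cast (by linarith : B ≠ 0)
  have h := J_cable (n := n) isKnot_KK cab_isKnot_one
    (fun m => (m : ℤ) * (m + 2) - ((1 : ℕ) + 1 : ℤ) * ((n : ℤ) * (n + 2)))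
    (fun B hB m i hi => twist_H (gen_pow hB (k := 2) (by norm_num)) n 1 m i hi) hB
  rw [hBa] at h
  have h' : J (a : ℂ) 76 KC n = _ := h
  rw [h']
  have hf := fold_two _ (oddExt_neg (fun m : ℕ => (B : ℂ) ^
    ((m : ℤ) * (m + 2) - ((1 : ℕ) + 1 : ℤ) * ((n : ℤ) * (n + 2))) * J (a : ℂ) 38 KK m)) n
  have hpow : ∀ z : ℤ, (a : ℂ) ^ z = (B : ℂ) ^ (2 * z) := by
    intro z
    rw [← hBa, ← zpow_natCast, ← _root_.zpow_mul]
    rfl
  refine (hf.trans ?_)
  rw [mul_comm ((a : ℂ) ^ _) ((-1) ^ n), mul_assoc]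
  congr 1
  rw [Finset.mul_sum]
  refine Finset.sum_congr rfl fun s _ => ?_
  have e1 : (2 * (s : ℤ) + 1) = ((2 * s : ℕ) : ℤ) + 1 := by push_cast; ring
  rw [e1, oddExt_succ, hpow, hpow]
  have e2 : (B : ℂ) ^ ((((2 * s : ℕ) : ℤ)) * (((2 * s : ℕ) : ℤ) + 2) -
      ((1 : ℕ) + 1 : ℤ) * ((n : ℤ) * (n + 2))) =
      (B : ℂ) ^ (2 * -((n : ℤ) * (n + 2))) * (B : ℂ) ^ (2 * (2 * (s : ℤ) * (s + 1))) := by
    rw [← zpow_add₀ hB0]
    congr 1
    push_cast
    ring
  rw [e2]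
  ring

theorem cab_ext {f g : ℂ → ℂ} (hf : Differentiable ℂ f) (hg : Differentiable ℂ g)
    (hreal : ∀ t : ℝ, 0 < t → f t = g t) : f = g := by
  have hfreq : ∃ᶠ z in nhdsWithin (1 : ℂ) {1}ᶜ, f z = g z := by
    have ht : Filter.Tendsto (fun t : ℝ => (t : ℂ)) (nhdsWithin (1 : ℝ) {1}ᶜ)
        (nhdsWithin (1 : ℂ) {1}ᶜ) := by
      refine tendsto_nhdsWithin_iff.2 ⟨?_, ?_⟩
      · have := (Complex.continuous_ofReal.tendsto (1 : ℝ)).mono_left
          (nhdsWithin_le_nhds (s := {1}ᶜ))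
        simpa using this
      · filter_upwards [self_mem_nhdsWithin] with t ht
        intro h
        have h1 : (t : ℂ) = 1 := h
        exact ht (show t = 1 by exact_mod_cast h1)
    refine ht.frequently (Filter.Eventually.frequently ?_)
    filter_upwards [mem_nhdsWithin_of_mem_nhds (Ioi_mem_nhds (zero_lt_one' ℝ))] with t ht
    exact hreal t ht
  exact AnalyticOnNhd.eq_of_frequently_eq (fun z _ => hf.analyticAt z)
    (fun z _ => hg.analyticAt z) hfreq

theorem cab_diff (N : ℕ) (w : Word) (n : ℕ) :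
    Differentiable ℂ fun u : ℂ => colBracket (Complex.exp u) N w n := by
  unfold colBracket Polynomial.sum
  exact Differentiable.fun_sum fun j _ => (diff_bracket _ _).const_mul _

theorem cab_formula {A : ℂ} (hA : A ≠ 0) (n : ℕ) :
    colBracket A 76 KC n = A ^ (-((n : ℤ) * (n + 2))) * (-1) ^ n *
      ∑ s ∈ range (n + 1), (-1) ^ s * A ^ (2 * (s : ℤ) * (s + 1)) * colBracket A 38 KK (2 * s) := by
  have h := cab_ext (cab_diff 76 KC n)
    (g := fun u => Complex.exp u ^ (-((n : ℤ) * (n + 2))) * (-1) ^ n *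
      ∑ s ∈ range (n + 1), (-1) ^ s * Complex.exp u ^ (2 * (s : ℤ) * (s + 1)) *
        colBracket (Complex.exp u) 38 KK (2 * s))
    (((diff_zpow _).mul_const _).mul (Differentiable.fun_sum fun s _ =>
      ((diff_zpow _).const_mul _).mul (cab_diff _ _ _))) fun t ht => by
      have h1 : 1 < Real.exp t := Real.one_lt_exp_iff.2 ht
      have h2 := cab_J h1 n
      have hq := gen_of_real h1
      simp only [← colBracket_eq_J hq cab_isKnot, ← colBracket_eq_J hq isKnot_KK] at h2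
      rw [Complex.ofReal_exp] at h2
      exact h2
  have := congrFun h (Complex.log A)
  simpa only [Complex.exp_log hA] using this

theorem cab_le {A : ℂ} (hA : ‖A‖ = 1) (n : ℕ) :
    ‖colBracket A 76 KC n‖ ≤ ∑ s ∈ range (n + 1), ‖colBracket A 38 KK (2 * s)‖ := by
  have h0 : A ≠ 0 := fun h => by simp [h] at hA
  rw [cab_formula h0]
  simp only [norm_mul, norm_zpow, norm_pow, norm_neg, norm_one, hA, one_zpow, one_pow, one_mul]
  refine (norm_sum_le _ _).trans (le_of_eq (Finset.sum_congr rfl fun s _ => ?_))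
  simp only [norm_mul, norm_zpow, norm_pow, norm_neg, norm_one, hA, one_zpow, one_pow, one_mul]

theorem cab_ge {A : ℂ} (hA : ‖A‖ = 1) {n : ℕ} {M : ℝ}
    (hM : ∀ m ≤ n, ‖colBracket A 76 KC m‖ ≤ M) : ‖colBracket A 38 KK (2 * n)‖ ≤ 2 * M := by
  have h0 : A ≠ 0 := fun h => by simp [h] at hA
  have hs : ∀ m ≤ n + 1, ‖∑ s ∈ range m,
      (-1) ^ s * A ^ (2 * (s : ℤ) * (s + 1)) * colBracket A 38 KK (2 * s)‖ ≤ M := by
    intro m hm
    cases m with
    | zero => simpa using (norm_nonneg _).trans (hM 0 (Nat.zero_le n))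
    | succ m =>
      have h := hM m (by omega)
      rw [cab_formula h0] at h
      simpa only [norm_mul, norm_zpow, norm_pow, norm_neg, norm_one, hA, one_zpow, one_pow,
        one_mul] using h
  have h1 := hs (n + 1) le_rfl
  have h2 := hs n (Nat.le_succ n)
  rw [Finset.sum_range_succ] at h1
  have h3 := (norm_sub_le _ _).trans (add_le_add h1 h2)
  rw [add_sub_cancel_left] at h3
  simp only [norm_mul, norm_zpow, norm_pow, norm_neg, norm_one, hA, one_zpow, one_pow,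
    one_mul] at h3
  linarith

/-- the summand of the inner sum -/
noncomputable def cabf (R : ℕ) (k : ℤ) : ℂ := chirp R k * Y R (12 * k + 1)

theorem cabf_per {R : ℕ} (hR : 0 < R) (k l : ℤ) : cabf R (k + l * R) = cabf R k := by
  unfold cabf chirp
  rw [show 12 * (k + l * R) + 1 = 12 * k + 1 + 12 * l * R by ring, Y_per hR,
    show 12 * (k + l * R) ^ 2 + 2 * (k + l * R) =
      12 * k ^ 2 + 2 * k + (24 * k * l + 12 * l ^ 2 * R + 2 * l) * R by ring,
    zpow_add₀ (zeta_ne R), zeta_zpow_mul hR, mul_one]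

theorem cab_shift {R : ℕ} (hR : 0 < R) (a : ℤ) :
    ∑ i ∈ range R, cabf R (a + i) = ∑ i ∈ range R, cabf R i := by
  have step : ∀ a : ℤ, ∑ i ∈ range R, cabf R (a + 1 + i) = ∑ i ∈ range R, cabf R (a + i) := by
    intro a
    have h1 := sum_range_succ (fun i : ℕ => cabf R (a + i)) R
    have h2 := sum_range_succ' (fun i : ℕ => cabf R (a + i)) R
    have h3 : ∑ i ∈ range R, cabf R (a + 1 + i) = ∑ i ∈ range R, cabf R (a + ((i + 1 : ℕ) : ℤ)) :=
      sum_congr rfl fun i _ => by congr 1; push_cast; ring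
    have h4 := cabf_per hR a 1
    rw [one_mul] at h4
    simp only [Nat.cast_zero, add_zero] at h2
    rw [h3]
    linear_combination h1 - h2 + h4
  induction a using Int.induction_on with
  | zero => simp
  | succ a ih => rw [step, ih]
  | pred a ih => rw [← step, sub_add_cancel, ih]

theorem cab_period {R : ℕ} (hR : Odd R) (h : 3 ∣ R ∨ 6 ∣ R + 1) :
    ∑ i ∈ range R, cabf R i = 0 := by
  have h0 := hR.pos
  rcases h with ⟨t, ht⟩ | ⟨t, ht⟩
  · have hRt : (R : ℤ) = 3 * t := by exact_mod_cast ht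
    have h1 : ∀ k : ℤ, cabf R (t + k) = zeta R ^ (2 * (t : ℤ)) * cabf R k := by
      intro k
      unfold cabf chirp
      rw [show 12 * (t + k) + 1 = 12 * k + 1 + 4 * (R : ℤ) by rw [hRt]; ring, Y_per h0,
        show 12 * (t + k) ^ 2 + 2 * (t + k) =
          2 * (t : ℤ) + (12 * k ^ 2 + 2 * k) + (8 * k + 4 * t) * (R : ℤ) by rw [hRt]; ring,
        zpow_add₀ (zeta_ne R), zeta_zpow_mul h0, mul_one, zpow_add₀ (zeta_ne R), mul_assoc]
    have h2 := cab_shift h0 t
    simp only [h1, ← mul_sum] at h2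
    have h3 : br R t ≠ 0 := br_ne hR fun hd => by
      have := Int.le_of_dvd (by omega) hd
      omega
    by_contra hne
    refine h3 ?_
    have h4 : zeta R ^ (2 * (t : ℤ)) = 1 := (mul_eq_right₀ hne).1 h2
    have h5 : zeta R ^ (t : ℤ) ≠ 0 := zpow_ne_zero _ (zeta_ne R)
    rw [two_mul, zpow_add₀ (zeta_ne R)] at h4
    rw [B4a_br, sub_eq_zero]
    exact eq_inv_of_mul_eq_one_left h4
  · have hRt : (R : ℤ) = 6 * t - 1 := by omega
    have h1 : ∀ k : ℤ, cabf R (-t - k) = -cabf R k := by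
      intro k
      unfold cabf chirp
      rw [show 12 * (-t - k) + 1 = -(12 * k + 1) + (-2) * (R : ℤ) by rw [hRt]; ring, Y_per h0,
        Y_neg, show 12 * (-t - k) ^ 2 + 2 * (-t - k) =
          12 * k ^ 2 + 2 * k + (4 * k + 2 * t) * (R : ℤ) by rw [hRt]; ring,
        zpow_add₀ (zeta_ne R), zeta_zpow_mul h0, mul_one, mul_neg]
    have h2 := cab_shift h0 (-t - R + 1)
    rw [← sum_range_reflect] at h2
    have h3 : ∑ j ∈ range R, cabf R (-t - R + 1 + ((R - 1 - j : ℕ) : ℤ)) =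
        ∑ j ∈ range R, -cabf R j := sum_congr rfl fun j hj => by
      have := mem_range.1 hj
      rw [← h1]
      congr 1
      omega
    rw [h3, sum_neg_distrib] at h2
    linear_combination (-1 / 2 : ℂ) * h2

/-- the inner sum -/
noncomputable def cabX (R s : ℕ) : ℂ := ∑ k ∈ Icc (-(s : ℤ)) s, cabf R k

theorem cabX_succ (R s : ℕ) :
    cabX R (s + 1) = cabX R s + cabf R (s + 1) + cabf R (-(s + 1)) := by
  unfold cabX
  have e : Icc (-((s + 1 : ℕ) : ℤ)) ((s + 1 : ℕ) : ℤ) =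
      insert (-((s : ℤ) + 1)) (insert ((s : ℤ) + 1) (Icc (-(s : ℤ)) s)) := by
    ext j
    simp only [mem_Icc, mem_insert]
    push_cast
    omega
  rw [e, sum_insert, sum_insert]
  · ring
  · simp only [mem_Icc]
    omega
  · simp only [mem_Icc, mem_insert]
    omega

theorem cabX_eq (R s : ℕ) : cabX R s = ∑ i ∈ range (2 * s + 1), cabf R (-s + i) := by
  unfold cabX
  rw [Int.Icc_eq_finset_map, sum_map]
  refine sum_congr (by congr 1; omega) fun i _ => rfl

theorem cabX_refl {r : ℕ} (h : 3 ∣ 2 * r + 1 ∨ 6 ∣ 2 * r + 1 + 1) (j : ℕ) :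
    ∀ i, i + j = r → cabX (2 * r + 1) (r + j) = -cabX (2 * r + 1) i := by
  have h0 : 0 < 2 * r + 1 := Nat.succ_pos _
  induction j with
  | zero =>
    intro i hi
    obtain rfl : i = r := hi
    rw [add_zero, cabX_eq, cab_shift h0, cab_period ⟨i, rfl⟩ h, neg_zero]
  | succ j ih =>
    intro i hi
    have h1 := ih (i + 1) (by omega)
    have h2 := cabf_per h0 (-((i : ℤ) + 1)) 1
    have h3 := cabf_per h0 ((i : ℤ) + 1) (-1)
    rw [← add_assoc, cabX_succ, h1, cabX_succ, ← h2, ← h3,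
      show ((r + j : ℕ) : ℤ) + 1 = -((i : ℤ) + 1) + 1 * ((2 * r + 1 : ℕ) : ℤ) by omega,
      show -(-((i : ℤ) + 1) + 1 * ((2 * r + 1 : ℕ) : ℤ)) =
        (i : ℤ) + 1 + -1 * ((2 * r + 1 : ℕ) : ℤ) by ring]
    ring

theorem cab_psi {r : ℕ} {i j : ℕ} (h : i + j = r) :
    psi (2 * r + 1) ((r + j : ℕ) : ℤ) = psi (2 * r + 1) i := by
  have e : ((r + j : ℕ) : ℤ) = i + 2 * j := by omega
  have e2 : ((2 * r + 1 : ℕ) : ℤ) = 2 * i + 2 * j + 1 := by omega
  unfold psi
  rw [e, show 5 * (((i : ℤ) + 2 * j) ^ 2 + (i + 2 * j)) =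
      5 * (i ^ 2 + i) + (10 * j) * ((2 * r + 1 : ℕ) : ℤ) by rw [e2]; ring,
    zpow_add₀ (zeta_ne _), zeta_zpow_mul (Nat.succ_pos _), mul_one,
    zpow_add₀ (by norm_num : (-1 : ℂ) ≠ 0), (even_two_mul (j : ℤ)).neg_one_zpow, mul_one]

theorem cabS_succ (R n : ℕ) : Ssum R (n + 1) = Ssum R n + psi R n * cabX R n := by
  unfold Ssum
  rw [sum_range_succ]
  rfl

theorem cabS_refl {r : ℕ} (h : 3 ∣ 2 * r + 1 ∨ 6 ∣ 2 * r + 1 + 1) (j : ℕ) :
    ∀ i, i + j = r → Ssum (2 * r + 1) (r + j + 1) = Ssum (2 * r + 1) i := by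
  induction j with
  | zero =>
    intro i hi
    obtain rfl : i = r := hi
    have h1 := cabX_refl h 0 i rfl
    rw [add_zero] at h1
    rw [add_zero, cabS_succ, show cabX (2 * i + 1) i = 0 by linear_combination (1 / 2 : ℂ) * h1,
      mul_zero, add_zero]
  | succ j ih =>
    intro i hi
    rw [cabS_succ, ← add_assoc, ih (i + 1) (by omega), cabS_succ, add_assoc r,
      cabX_refl h (j + 1) i hi, cab_psi hi]
    ring

/-- the absolute value of the coordinate of dimension `x` -/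
noncomputable def cabg (R x : ℕ) : ℝ := ‖Y R x / br R x * Ssum R x‖

theorem cabg_refl {r : ℕ} (h : 3 ∣ 2 * r + 1 ∨ 6 ∣ 2 * r + 1 + 1) {x y : ℕ} (hx : x ≤ r)
    (hy : x + y = 2 * r + 1) : cabg (2 * r + 1) y = cabg (2 * r + 1) x := by
  have h0 : 0 < 2 * r + 1 := Nat.succ_pos _
  have e : (y : ℤ) = -x + 1 * ((2 * r + 1 : ℕ) : ℤ) := by omega
  have h1 := cabS_refl h (r - x) x (by omega)
  rw [show r + (r - x) + 1 = y by omega] at h1
  unfold cabg
  rw [h1, e, Y_per h0, br_per h0, Y_neg, br_neg, neg_div_neg_eq]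

/-- the square of the norm of the state of the cable -/
noncomputable def cabT (r : ℕ) : ℝ :=
  (∑ n ∈ range r, (‖br (2 * r + 1) 1‖ *
    ‖colBracket (cexp (π * I / ((2 * r + 1 : ℕ) : ℂ))) 76 KC n‖) ^ 2) / (2 * r + 1 : ℕ)

theorem cab_state (r : ℕ) : stateNorm 76 KC r = Real.sqrt (cabT r) := by
  unfold stateNorm cabT
  congr 1
  rw [Finset.sum_div]
  refine Finset.sum_congr rfl fun n _ => ?_
  rw [norm_mul, norm_br, Complex.norm_real, Real.norm_eq_abs, abs_div,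
    abs_of_nonneg (Real.sqrt_nonneg _), mul_pow, mul_pow, div_pow, Real.sq_sqrt (by positivity)]
  push_cast
  rw [mul_one]
  ring

theorem cab_cmp {r : ℕ} (hr : 1 ≤ r) (h : 3 ∣ 2 * r + 1 ∨ 6 ∣ 2 * r + 1 + 1) :
    cabT r ≤ 1 * ((2 * r + 1 : ℕ) : ℝ) ^ 3 * Tsum (2 * r + 1) ∧
      Tsum (2 * r + 1) ≤ 4 * ((2 * r + 1 : ℕ) : ℝ) ^ 1 * cabT r := by
  have hodd : Odd (2 * r + 1) := ⟨r, rfl⟩
  obtain ⟨A, hA⟩ : ∃ A, A = cexp (π * I / ((2 * r + 1 : ℕ) : ℂ)) := ⟨_, rfl⟩
  obtain ⟨β, hβ⟩ : ∃ β, β = ‖br (2 * r + 1) 1‖ := ⟨_, rfl⟩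
  have hβ0 : 0 ≤ β := hβ ▸ norm_nonneg _
  have hn1 : ‖A‖ = 1 := by
    have : (π * I / ((2 * r + 1 : ℕ) : ℂ) : ℂ) = ((π / (2 * r + 1 : ℕ) : ℝ) : ℂ) * I := by
      push_cast; ring
    rw [hA, this, Complex.norm_exp_ofReal_mul_I]
  have ht : ∀ s < r, β * ‖colBracket A 38 KK (2 * s)‖ = cabg (2 * r + 1) (2 * s + 1) :=
    fun s hs => by rw [hA, hβ]; exact term_eq hodd (by omega) (by omega)
  obtain ⟨G, hG⟩ : ∃ G, G = ∑ x ∈ Icc 1 r, cabg (2 * r + 1) x ^ 2 := ⟨_, rfl⟩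
  obtain ⟨C, hC⟩ : ∃ C, C = ∑ n ∈ range r, (β * ‖colBracket A 76 KC n‖) ^ 2 := ⟨_, rfl⟩
  have e1 : Tsum (2 * r + 1) = G / (2 * r + 1 : ℕ) := by
    rw [hG, Tsum, show (2 * r + 1) / 2 = r by omega]; rfl
  have e2 : cabT r = C / (2 * r + 1 : ℕ) := by rw [hC, hA, hβ]; rfl
  have hG0 : 0 ≤ G := hG ▸ sum_nonneg fun _ _ => sq_nonneg _
  have hC0 : 0 ≤ C := hC ▸ sum_nonneg fun _ _ => sq_nonneg _
  obtain ⟨ρ, hρ⟩ : ∃ ρ : ℝ, ρ = (2 * r + 1 : ℕ) := ⟨_, rfl⟩
  have hrρ : (r : ℝ) ≤ ρ := by rw [hρ]; exact_mod_cast (by omega : r ≤ 2 * r + 1)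
  have hρ0 : 0 < ρ := by rw [hρ]; positivity
  have g1 : ∀ x ∈ Icc 1 r, cabg (2 * r + 1) x ≤ √G := fun x hx => Real.le_sqrt_of_sq_le
    (hG ▸ single_le_sum (f := fun x => cabg (2 * r + 1) x ^ 2) (fun _ _ => sq_nonneg _) hx)
  have g2 : ∀ s < r, β * ‖colBracket A 38 KK (2 * s)‖ ≤ √G := fun s hs => by
    rw [ht s hs]
    rcases le_or_gt (2 * s + 1) r with h1 | h1
    · exact g1 _ (mem_Icc.2 ⟨by omega, h1⟩)
    · rw [cabg_refl h (x := 2 * r - 2 * s) (by omega) (by omega)]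
      exact g1 _ (mem_Icc.2 ⟨by omega, by omega⟩)
  have g3 : ∀ n ∈ range r, (β * ‖colBracket A 76 KC n‖) ^ 2 ≤ ρ ^ 2 * G := fun n hn => by
    have hn' := mem_range.1 hn
    have k1 := mul_le_mul_of_nonneg_left (cab_le hn1 n) hβ0
    rw [mul_sum] at k1
    have k2 := k1.trans (sum_le_card_nsmul _ _ _ fun s hs => g2 s (by have := mem_range.1 hs; omega))
    rw [card_range, nsmul_eq_mul] at k2
    have k3 : ((n + 1 : ℕ) : ℝ) ≤ ρ := (Nat.cast_le.2 hn').trans hrρ
    have k4 := k2.trans (mul_le_mul_of_nonneg_right k3 (Real.sqrt_nonneg _))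
    have k5 := pow_le_pow_left₀ (by positivity) k4 2
    rwa [mul_pow ρ, Real.sq_sqrt hG0] at k5
  have g4 : ∀ n < r, β * ‖colBracket A 76 KC n‖ ≤ √C := fun n hn => Real.le_sqrt_of_sq_le
    (hC ▸ single_le_sum (f := fun n => (β * ‖colBracket A 76 KC n‖) ^ 2) (fun _ _ => sq_nonneg _)
      (mem_range.2 hn))
  have g5 : ∀ s < r, cabg (2 * r + 1) (2 * s + 1) ≤ 2 * √C := fun s hs => by
    rw [← ht s hs]
    rcases hβ0.eq_or_lt with h1 | h1
    · rw [← h1, zero_mul]; positivity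
    · have k1 := cab_ge hn1 (n := s) (M := √C / β) fun m hm => by
        rw [le_div_iff₀ h1, mul_comm]; exact g4 m (by omega)
      rw [← mul_div_assoc, le_div_iff₀ h1, mul_comm] at k1
      exact k1
  have g6 : ∀ x ∈ Icc 1 r, cabg (2 * r + 1) x ^ 2 ≤ 4 * C := fun x hx => by
    obtain ⟨x1, x2⟩ := mem_Icc.1 hx
    have k1 : cabg (2 * r + 1) x ≤ 2 * √C := by
      rcases Nat.even_or_odd' x with ⟨t, rfl | rfl⟩
      · rw [← cabg_refl h x2 (y := 2 * (r - t) + 1) (by omega)]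
        exact g5 _ (by omega)
      · exact g5 _ (by omega)
    have k2 := pow_le_pow_left₀ (norm_nonneg _) k1 2
    rw [mul_pow, Real.sq_sqrt hC0] at k2
    exact k2.trans (le_of_eq (by norm_num))
  have u1 : C ≤ ρ * (ρ ^ 2 * G) := by
    have k := sum_le_card_nsmul _ _ _ g3
    rw [← hC, card_range, nsmul_eq_mul] at k
    exact k.trans (mul_le_mul_of_nonneg_right hrρ (by positivity))
  have u2 : G ≤ ρ * (4 * C) := by
    have k := sum_le_card_nsmul _ _ _ g6
    rw [← hG, Nat.card_Icc, Nat.add_sub_cancel, nsmul_eq_mul] at k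
    exact k.trans (mul_le_mul_of_nonneg_right hrρ (by positivity))
  rw [e1, e2, ← hρ, ← mul_div_assoc, ← mul_div_assoc]
  exact ⟨div_le_div_of_nonneg_right (by linarith) hρ0.le,
    div_le_div_of_nonneg_right (by linarith) hρ0.le⟩

theorem cab_no_limit (V : ℝ) :
    ¬ Tendsto (fun r : ℕ => 2 * π / r * Real.log (stateNorm 76 KC r)) atTop (𝓝 V) := by
  intro hV
  obtain ⟨δ0, hδ0, hU⟩ := T_upper
  have hg := gam_pos
  obtain ⟨δ, hδ, hδa, hδb⟩ : ∃ δ > 0, δ ≤ δ0 ∧ δ ≤ 4 * gam :=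
    ⟨min δ0 (4 * gam), lt_min hδ0 (by linarith), min_le_left _ _, min_le_right _ _⟩
  have hL := T_lower (ε := δ / 8) (by positivity)
  have h0 : ∀ r, 0 ≤ cabT r := fun r => by unfold cabT; positivity
  have hlog : ∀ r : ℕ, 2 * π / r * Real.log (stateNorm 76 KC r) = π / r * Real.log (cabT r) := by
    intro r
    rw [cab_state, Real.log_sqrt (h0 r)]
    ring
  have hlim : ∀ c : ℝ, Tendsto (fun r : ℕ => π / r * (c * ((2 * r + 1 : ℕ) : ℝ))) atTop
      (𝓝 (2 * π * c)) := by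
    intro c
    have h1 : Tendsto (fun r : ℕ => 2 * π * c + π * c * (r : ℝ)⁻¹) atTop (𝓝 (2 * π * c + π * c * 0)) :=
      tendsto_const_nhds.add (tendsto_inv_atTop_nhds_zero_nat.const_mul _)
    rw [mul_zero, add_zero] at h1
    refine h1.congr' ?_
    filter_upwards [eventually_gt_atTop 0] with r hr
    have : (r : ℝ) ≠ 0 := by positivity
    push_cast
    field_simp
  have t1 : Tendsto (fun j : ℕ => 15 * j + 7) atTop atTop :=
    tendsto_atTop_mono (fun j => by simp only [id]; omega) tendsto_id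
  have t2 : Tendsto (fun j : ℕ => 15 * j + 2) atTop atTop :=
    tendsto_atTop_mono (fun j => by simp only [id]; omega) tendsto_id
  have t3 : Tendsto (fun r : ℕ => 2 * r + 1) atTop atTop :=
    tendsto_atTop_mono (fun j => by simp only [id]; omega) tendsto_id
  have up : V ≤ 2 * π * (4 * gam - δ / 2) := by
    refine le_of_tendsto_of_tendsto (hV.comp t1) ((hlim (4 * gam - δ / 2)).comp t1) ?_
    filter_upwards [(t3.comp t1).eventually hU,
      (t3.comp t1).eventually (absorb (half_pos hδ) 1 3)] with j hj hab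
    simp only [Function.comp] at hj hab ⊢
    have hT := (hj ⟨15 * j + 7, rfl⟩ ⟨2 * j + 1, by ring⟩).trans
      (exp_mono (by linarith : 4 * gam - δ0 ≤ 4 * gam - δ))
    have hc := ((cab_cmp (r := 15 * j + 7) (by omega) (Or.inl (by omega))).1.trans
      (mul_le_mul_of_nonneg_left hT (by positivity))).trans (absorb' hab)
    rw [hlog]
    refine mul_le_mul_of_nonneg_left ?_ (by positivity)
    rcases (h0 (15 * j + 7)).eq_or_lt with h | h
    · rw [← h, Real.log_zero]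
      exact mul_nonneg (by linarith) (by positivity)
    · exact (Real.log_le_iff_le_exp h).2 hc
  have lo : 2 * π * (4 * gam - δ / 4) ≤ V := by
    refine le_of_tendsto_of_tendsto ((hlim (4 * gam - δ / 4)).comp t2) (hV.comp t2) ?_
    filter_upwards [(t3.comp t2).eventually hL,
      (t3.comp t2).eventually (absorb (δ := δ / 4 / 2) (by positivity) 4 1)] with j hj hab
    simp only [Function.comp] at hj hab ⊢
    have hT := hj ⟨15 * j + 2, rfl⟩ ⟨6 * j + 1, by ring⟩ (by omega)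
    have h1 := absorb' (a := 4 * gam) hab
    rw [show δ / 4 / 2 = δ / 8 by ring] at h1
    have hc := le_of_mul_le_mul_left ((h1.trans hT).trans
      (cab_cmp (r := 15 * j + 2) (by omega) (Or.inr (by omega))).2) (by positivity)
    rw [hlog]
    refine mul_le_mul_of_nonneg_left ?_ (by positivity)
    exact (Real.le_log_iff_exp_le (lt_of_lt_of_le (Real.exp_pos _) hc)).2 hc
  nlinarith [Real.pi_pos]

theorem cab_main : ∃ (N : ℕ) (w : Word), IsKnot N w ∧
    IsKnot (N * 2) (cable 2 w ++ [(0, true)]) ∧ ∀ V : ℝ,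
    ¬ Tendsto (fun r : ℕ => 2 * π / r *
      Real.log (stateNorm (N * 2) (cable 2 w ++ [(0, true)]) r)) atTop (𝓝 V) :=
  ⟨38, KK, isKnot_KK, cab_isKnot, cab_no_limit⟩

end Pool.Agent.Work.MP_c404d3_gt
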